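import Pool.Agent.H84.S2.TgB

/-!
# MP_70ba79_ag, board s2l_modules: row B_GNB (divisibility for all nodal curves)
-/

set_option autoImplicit false

namespace Pool.Agent.H20.S2

open MvPolynomial SC
open Pool.Agent.H27.LV (ge deg poleOrder canDeg)
open Pool.Agent.H84.SM (cr dt dp)
open Pool.Agent.H84.SL (pd)
open Pool.Agent.H92.SF (Q2)
open Pool.Agent.H3.SF (Itg Bb BB Hm eu grd hes Sfc Crd Cnn Crf Prm nv Vl VQ evc FE E)
open Pool.Agent.H84.SF
open Pool.Agent.H3.S2
open Pool.Agent.H84.S2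

/-- the surface data in the other form -/
theorem gnb_syd {k F σ : Type} [Field k] [Field F] [Algebra k F] [Fintype σ] {X : σ → F}
    {u : Fin 3 → F} {θ : F} {dd : Fin 3 → Derivation k F F} {J : MvPolynomial (Fin 3) k}
    {δ j0 c0 : ℕ} {c : Fin 3 → σ → k} (hS : SrD X u θ dd J δ j0 c0 c) : SYd X u dd J j0 := by
  have hspan : ∀ a : F, a ∈ Submodule.span k (Set.range X) → a ∈ Algebra.adjoin k (Set.range X) := by
    intro a ha
    exact Algebra.span_le_adjoin k (Set.range X) ha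
  refine ⟨hS.sfc.ind, hS.sfc.du, hS.sfc.comm, fun l => ⟨∑ s, C (c l s) * MvPolynomial.X s, ?_, ?_⟩,
    hS.prj.Xint, hS.prj.Xeu, hS.sfc.Jh, hS.sfc.J0, ?_, fun a l => hS.sfc.Jd l a⟩
  · refine IsHomogeneous.sum _ _ _ fun s _ => ?_
    have := (isHomogeneous_C σ (c l s)).mul (isHomogeneous_X k s)
    rwa [zero_add] at this
  · rw [map_sum, hS.lin l]
    refine Finset.sum_congr rfl fun s _ => ?_
    rw [map_mul, aeval_C, aeval_X, Algebra.smul_def]
  · intro a ha
    have h1 := hS.prj.JI a ha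
    refine (Algebra.adjoin_le ?_ : Pool.Agent.H17.SD.PB k u θ ≤ _) h1
    intro b hb
    rcases hb with rfl | ⟨l, rfl⟩
    · exact hspan _ hS.prj.tlin
    · exact hspan _ (hS.prj.ulin l)

/-- a linear form which vanishes at a point and not at another point -/
theorem gnb_form {k L σ : Type} [Field k] [Field L] [Algebra k L] (P : σ → Polynomial L)
    (t : σ → k) (i j : σ) : ∃ l : MvPolynomial σ k, l.IsHomogeneous 1 ∧
      (∀ μ : k, eval (μ • t) l = 0) ∧ (aeval P l).coeff 0 =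
        algebraMap k L (t i) * (P j).coeff 0 - algebraMap k L (t j) * (P i).coeff 0 := by
  refine ⟨C (t i) * X j - C (t j) * X i, ?_, ?_, ?_⟩
  · have h1 := (isHomogeneous_C σ (t i)).mul (isHomogeneous_X k j)
    have h2 := (isHomogeneous_C σ (t j)).mul (isHomogeneous_X k i)
    rw [zero_add] at h1 h2
    exact h1.sub h2
  · intro μ
    simp only [map_sub, map_mul, eval_C, eval_X, Pi.smul_apply, smul_eq_mul]
    ring
  · simp only [map_sub, map_mul, aeval_C, aeval_X, Polynomial.coeff_sub, Polynomial.mul_coeff_zero]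
    have h : ∀ a : k, (algebraMap k (Polynomial L) a).coeff 0 = algebraMap k L a := by
      intro a
      rw [Polynomial.algebraMap_apply, Polynomial.coeff_C_zero]
    rw [h, h]

theorem pf_GNB (hFND : T_FND) (hGNQ : T_GNQ) (hGNN : T_GNN) : T_GNB := by
  classical
  intro k F σ _ _ _ _ _ _ _ X u θ dd J δ j0 c0 c hCn hS m GP hm hN
  have hY := gnb_syd hS
  obtain ⟨T0, hT0⟩ := hFND k F σ X u dd J j0 hY m GP hN.hom
  intro L M _ _ _ _ _ _ Δ P c1 a hc1 hP0 hK hP
  obtain ⟨i0, hi0⟩ := hP0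
  by_cases h : ∃ t : σ → k, t ≠ 0 ∧ Cone X t ∧ eval t GP = 0 ∧ Nod X GP t ∧
      ∃ μ : L, μ ≠ 0 ∧ ∀ i, (P i).coeff 0 = μ * algebraMap k L (t i)
  · obtain ⟨t, ht0, htC, htG, -, μ, hμ, hμt⟩ := h
    exact Dvd.dvd.mul_left (hGNN k F σ X u dd J j0 c hY hS.lin m GP hm hN t ht0 htC htG L M Δ P c1 a
      hc1 hK hP μ hμ hμt) _
  · -- the linear forms
    have hl : ∀ t : σ → k, ∃ l : MvPolynomial σ k, l.IsHomogeneous 1 ∧
        (∀ μ : k, eval (μ • t) l = 0) ∧ ((∃ μ : k, μ ≠ 0 ∧ μ • t ≠ 0 ∧ Cone X (μ • t) ∧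
          eval (μ • t) GP = 0 ∧ Nod X GP (μ • t)) → (aeval P l).coeff 0 ≠ 0) := by
      intro t
      by_cases hNL : ∃ μ : k, μ ≠ 0 ∧ μ • t ≠ 0 ∧ Cone X (μ • t) ∧
          eval (μ • t) GP = 0 ∧ Nod X GP (μ • t)
      · obtain ⟨μ, hμ, hs0, hsC, hsG, hsN⟩ := hNL
        have hex : ∃ i j : σ, algebraMap k L (t i) * (P j).coeff 0 -
            algebraMap k L (t j) * (P i).coeff 0 ≠ 0 := by
          by_contra hno
          push Not at hno
          have ht0 : t ≠ 0 := by
            rintro rfl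
            exact hs0 (smul_zero μ)
          obtain ⟨j0, hj0⟩ := Function.ne_iff.mp ht0
          have hj0' : algebraMap k L (t j0) ≠ 0 := (_root_.map_ne_zero _).mpr hj0
          have hμ' : algebraMap k L μ ≠ 0 := (_root_.map_ne_zero _).mpr hμ
          have hall : ∀ i, (P i).coeff 0 =
              (P j0).coeff 0 / algebraMap k L (t j0) * algebraMap k L (t i) := by
            intro i
            have h1 := hno j0 i
            field_simp
            linear_combination h1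
          have hPj0 : (P j0).coeff 0 ≠ 0 := by
            intro h0
            apply hi0
            rw [hall i0, h0, zero_div, zero_mul]
          refine h ⟨μ • t, hs0, hsC, hsG, hsN,
            (P j0).coeff 0 / (algebraMap k L (t j0) * algebraMap k L μ),
            div_ne_zero hPj0 (mul_ne_zero hj0' hμ'), fun i => ?_⟩
          rw [hall i, Pi.smul_apply, smul_eq_mul, map_mul]
          field_simp
        obtain ⟨i, j, hij⟩ := hex
        obtain ⟨l, h1, h2, h3⟩ := gnb_form P t i j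
        exact ⟨l, h1, h2, fun _ => by rw [h3]; exact hij⟩
      · exact ⟨0, isHomogeneous_zero _ _ _, fun μ => map_zero _, fun h' => absurd h' hNL⟩
    choose l hl1 hl2 hl3 using hl
    let T1 : Finset (σ → k) := T0.filter (fun t => ∃ μ : k, μ ≠ 0 ∧ μ • t ≠ 0 ∧ Cone X (μ • t) ∧
      eval (μ • t) GP = 0 ∧ Nod X GP (μ • t))
    refine hGNQ k F σ X u θ dd J δ j0 c0 c hCn hS m GP hm hN (∑ _t ∈ T1, 1) (∏ t ∈ T1, l t)
      (IsHomogeneous.prod _ _ _ fun t _ => hl1 t) ?_ L M Δ P c1 a hc1 ⟨i0, hi0⟩ hK hP ?_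
    · intro s hs0 hspt hsG
      rcases hN.ndl s hs0 hspt hsG with h1 | h1
      · exact Or.inl h1
      · refine Or.inr ⟨h1, ?_⟩
        have hsC : Cone X s := ⟨fun f d hf => hCn.hmg f hf d, hspt⟩
        obtain ⟨t, ht, μ, hμ, rfl⟩ := hT0 s hs0 hsC hsG h1
        rw [map_prod]
        exact Finset.prod_eq_zero (Finset.mem_filter.mpr ⟨ht, μ, hμ, hs0, hsC, hsG, h1⟩) (hl2 t μ)
    · rw [map_prod, Polynomial.coeff_zero_eq_eval_zero, Polynomial.eval_prod, Finset.prod_ne_zero_iff]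
      intro t ht
      rw [← Polynomial.coeff_zero_eq_eval_zero]
      exact hl3 t (Finset.mem_filter.mp ht).2

end Pool.Agent.H20.S2
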