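import Pool.Agent.H84.S2.TgB
import Pool.Agent.H64.SF.FLZ
import Pool.Agent.H29.SF.FBZ

/-!
# MP_70ba79_ag, board s2l_modules: row B_X13 (the curves of bounded degree which are not of log
general type)
-/

set_option autoImplicit false

namespace Pool.Agent.H20.S2

open MvPolynomial SC
open Pool.Agent.H27.LV (ge deg poleOrder canDeg)
open Pool.Agent.H84.SM (cr dt dp)
open Pool.Agent.H84.SL (pd)
open Pool.Agent.H92.SF (Q2)
open Pool.Agent.H3.SF (Itg Bb BB Hm eu grd hes Sfc Crd Cnn Crf Prm nv Vl VQ evc FE E)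
open Pool.Agent.H84.SF
open Pool.Agent.H3.S2
open Pool.Agent.H84.S2
open Pool.Agent.H64.SF (map_aeval_poly map_lin RR UU UU_coeff UU_coeff_ge UU_natDegree II)
open Pool.Agent.H29.SF

theorem x13_prime (hGL3 : T_GL3) (k F σ : Type) [Field k] [IsAlgClosed k] [CharZero k] [Field F]
    [Algebra k F] [Fintype σ] (Y : σ → F) (u : Fin 3 → F) (θ : F)
    (dd : Fin 3 → Derivation k F F) (J : MvPolynomial (Fin 3) k) (δ j0 c0 : ℕ)
    (c : Fin 3 → σ → k) (hS : SrD Y u θ dd J δ j0 c0 c) (m : ℕ) (GP : MvPolynomial σ k)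
    (hm : j0 + 4 ≤ m) (hG : GP.IsHomogeneous m)
    (hC : Gnd Y J c GP) (e a : ℕ) (he : 1 ≤ e)
    (q : Ideal (RR k σ e)) (hq : q.IsPrime) (hI : II e Y a GP ≤ q) :
    ∃ (N : ℕ) (Ψ : MvPolynomial (Fin 3) k), Ψ ≠ 0 ∧ Ψ.IsHomogeneous N ∧
      ((aeval (UU k σ e) GP).coeff a ∉ q → (∃ i, (UU k σ e i).coeff e ∉ q) →
        (∃ i, (UU k σ e i).coeff 0 ∉ q) →
          ∀ j, (aeval (lin c (UU k σ e)) Ψ).coeff j ∈ q) := by
  by_cases hc : (aeval (UU k σ e) GP).coeff a ∉ q ∧ (∃ i, (UU k σ e i).coeff e ∉ q) ∧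
        (∃ i, (UU k σ e i).coeff 0 ∉ q)
  · obtain ⟨h1, ⟨i1, h2⟩, ⟨i2, h3⟩⟩ := hc
    let L : Type := FractionRing (RR k σ e ⧸ q)
    let ρ : RR k σ e →ₐ[k] L :=
      (IsScalarTower.toAlgHom k (RR k σ e ⧸ q) L).comp (Ideal.Quotient.mkₐ k q)
    have hker : ∀ z, ρ z = 0 ↔ z ∈ q := by
      intro z
      have e1 : ρ z = algebraMap (RR k σ e ⧸ q) L (Ideal.Quotient.mk q z) := rfl
      rw [e1, ← map_zero (algebraMap (RR k σ e ⧸ q) L),
        (IsFractionRing.injective (RR k σ e ⧸ q) L).eq_iff, Ideal.Quotient.eq_zero_iff_mem]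
    have hcoef : ∀ (A : Polynomial (RR k σ e)) (n : ℕ),
        (A.map (ρ : RR k σ e →+* L)).coeff n = ρ (A.coeff n) := fun A n => by
      rw [Polynomial.coeff_map]; rfl
    have hP : aeval (fun i => (UU k σ e i).map (ρ : RR k σ e →+* L)) GP =
        Polynomial.C (ρ ((aeval (UU k σ e) GP).coeff a)) * Polynomial.X ^ a := by
      rw [← map_aeval_poly ρ (UU k σ e) GP]
      ext n
      rw [hcoef, Polynomial.coeff_C_mul_X_pow]
      by_cases hn : n = a
      · rw [if_pos hn, hn]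
      · rw [if_neg hn, hker]
        exact hI (Ideal.subset_span (Or.inl ⟨n, hn, rfl⟩))
    have hK : ∀ f : MvPolynomial σ k, aeval Y f = 0 →
        aeval (fun i => (UU k σ e i).map (ρ : RR k σ e →+* L)) f = 0 := by
      intro f hf
      rw [← map_aeval_poly ρ (UU k σ e) f]
      ext n
      rw [hcoef, Polynomial.coeff_zero, hker]
      exact hI (Ideal.subset_span (Or.inr ⟨f, n, hf, rfl⟩))
    obtain ⟨N, Ψ, hΨ, hΨN, hΨ0⟩ := hGL3 k F σ Y u θ dd J δ j0 c0 c hS m GP hm hG hC L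
      (fun i => (UU k σ e i).map (ρ : RR k σ e →+* L)) (ρ ((aeval (UU k σ e) GP).coeff a)) a e
      (fun h => h1 ((hker _).1 h)) he
      (fun i => (Polynomial.natDegree_map_le).trans (UU_natDegree k σ e i))
      ⟨i1, by
        change ((UU k σ e i1).map (ρ : RR k σ e →+* L)).coeff e ≠ 0
        rw [hcoef]; exact fun h => h2 ((hker _).1 h)⟩
      ⟨i2, by
        change ((UU k σ e i2).map (ρ : RR k σ e →+* L)).coeff 0 ≠ 0
        rw [hcoef]; exact fun h => h3 ((hker _).1 h)⟩ hK hP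
    refine ⟨N, Ψ, hΨ, hΨN, fun _ _ _ j => ?_⟩
    have h4 : aeval (fun i => (lin c (UU k σ e) i).map (ρ : RR k σ e →+* L)) Ψ = 0 := by
      rw [← hΨ0]
      exact congrArg (fun z : Fin 3 → Polynomial L => aeval z Ψ)
        (funext fun l => map_lin ρ c (UU k σ e) l)
    rw [← map_aeval_poly ρ (lin c (UU k σ e)) Ψ] at h4
    rw [← hker, ← hcoef, h4, Polynomial.coeff_zero]
  · refine ⟨0, 1, one_ne_zero, MvPolynomial.isHomogeneous_one _ _, fun h1 h2 h3 => ?_⟩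
    exact absurd ⟨h1, h2, h3⟩ hc

theorem x13_fam (hGL3 : T_GL3) (k F σ : Type) [Field k] [IsAlgClosed k] [CharZero k] [Field F]
    [Algebra k F] [Fintype σ] (Y : σ → F) (u : Fin 3 → F) (θ : F)
    (dd : Fin 3 → Derivation k F F) (J : MvPolynomial (Fin 3) k) (δ j0 c0 : ℕ)
    (c : Fin 3 → σ → k) (hS : SrD Y u θ dd J δ j0 c0 c) (m : ℕ) (GP : MvPolynomial σ k)
    (hm : j0 + 4 ≤ m) (hG : GP.IsHomogeneous m) (hC : Gnd Y J c GP) (e a : ℕ) (he : 1 ≤ e) :
    ∃ (N : ℕ) (Ψ : MvPolynomial (Fin 3) k), Ψ ≠ 0 ∧ Ψ.IsHomogeneous N ∧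
    ∀ (p : σ → Polynomial k) (c1 : k), c1 ≠ 0 → (∀ i, (p i).natDegree ≤ e) →
    (∃ i, (p i).coeff e ≠ 0) → (∃ i, (p i).coeff 0 ≠ 0) →
    (∀ f : MvPolynomial σ k, aeval Y f = 0 → aeval p f = 0) →
    aeval p GP = Polynomial.C c1 * Polynomial.X ^ a → aeval (lin c p) Ψ = 0 := by
  classical
  have hfin : (II e Y a GP).minimalPrimes.Finite := Ideal.finite_minimalPrimes_of_isNoetherianRing _ _
  have hpr : ∀ q : Ideal (RR k σ e), ∃ (N : ℕ) (Ψ : MvPolynomial (Fin 3) k), Ψ ≠ 0 ∧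
      Ψ.IsHomogeneous N ∧ (q ∈ (II e Y a GP).minimalPrimes →
      ((aeval (UU k σ e) GP).coeff a ∉ q → (∃ i, (UU k σ e i).coeff e ∉ q) →
        (∃ i, (UU k σ e i).coeff 0 ∉ q) →
          ∀ j, (aeval (lin c (UU k σ e)) Ψ).coeff j ∈ q)) := by
    intro q
    by_cases hq : q ∈ (II e Y a GP).minimalPrimes
    · obtain ⟨N, Ψ, h1, h2, h3⟩ := x13_prime hGL3 k F σ Y u θ dd J δ j0 c0 c hS m GP hm hG hC e a
        he q hq.1.1 hq.1.2
      exact ⟨N, Ψ, h1, h2, fun _ => h3⟩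
    · exact ⟨0, 1, one_ne_zero, MvPolynomial.isHomogeneous_one _ _, fun h => absurd h hq⟩
  choose N Ψ hΨ hΨN hΨq using hpr
  refine ⟨∑ q ∈ hfin.toFinset, N q, ∏ q ∈ hfin.toFinset, Ψ q,
    Finset.prod_ne_zero_iff.2 fun q _ => hΨ q,
    MvPolynomial.IsHomogeneous.prod _ _ _ fun q _ => hΨN q, ?_⟩
  intro p c1 hc hdeg hpe hp0 hK hp
  -- the point
  let ev : RR k σ e →ₐ[k] k := aeval (fun x : σ × Fin (e + 1) => (p x.1).coeff (x.2 : ℕ))
  have hcoef : ∀ (A : Polynomial (RR k σ e)) (n : ℕ),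
      (A.map (ev : RR k σ e →+* k)).coeff n = ev (A.coeff n) := fun A n => by
    rw [Polynomial.coeff_map]; rfl
  have hU : ∀ i, (UU k σ e i).map (ev : RR k σ e →+* k) = p i := by
    intro i
    ext n
    rw [hcoef]
    rcases lt_or_ge e n with hn | hn
    · rw [UU_coeff_ge k σ e i n hn, map_zero, Polynomial.coeff_eq_zero_of_natDegree_lt]
      exact (hdeg i).trans_lt hn
    · have := UU_coeff k σ e i ⟨n, Nat.lt_succ_of_le hn⟩
      change (UU k σ e i).coeff n = _ at this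
      rw [this]
      change aeval _ (X _) = _
      rw [aeval_X]
  have hev : ∀ Φ : MvPolynomial σ k, (aeval (UU k σ e) Φ).map (ev : RR k σ e →+* k) =
      aeval p Φ := by
    intro Φ
    rw [map_aeval_poly ev (UU k σ e) Φ]
    exact congrArg (fun z : σ → Polynomial k => aeval z Φ) (funext hU)
  have hevl : ∀ Φ : MvPolynomial (Fin 3) k,
      (aeval (lin c (UU k σ e)) Φ).map (ev : RR k σ e →+* k) = aeval (lin c p) Φ := by
    intro Φ
    rw [map_aeval_poly ev (lin c (UU k σ e)) Φ]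
    refine congrArg (fun z : Fin 3 → Polynomial k => aeval z Φ) (funext fun l => ?_)
    rw [map_lin ev c (UU k σ e) l]
    exact congrArg (fun z : σ → Polynomial k => lin c z l) (funext hU)
  have hprime : (RingHom.ker (ev : RR k σ e →+* k)).IsPrime := RingHom.ker_isPrime _
  have hIle : II e Y a GP ≤ RingHom.ker (ev : RR k σ e →+* k) := by
    unfold II
    rw [Ideal.span_le]
    rintro z (⟨j, hj, rfl⟩ | ⟨f, j, hf, rfl⟩)
    · change ev ((aeval (UU k σ e) GP).coeff j) = 0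
      rw [← hcoef, hev, hp, Polynomial.coeff_C_mul_X_pow, if_neg hj]
    · change ev ((aeval (UU k σ e) f).coeff j) = 0
      rw [← hcoef, hev, hK f hf, Polynomial.coeff_zero]
  obtain ⟨q, hq, hqle⟩ := Ideal.exists_minimalPrimes_le hIle
  have key := hΨq q hq
    (fun h => by
      have h1 : ev ((aeval (UU k σ e) GP).coeff a) = 0 := hqle h
      rw [← hcoef, hev, hp, Polynomial.coeff_C_mul_X_pow, if_pos rfl] at h1
      exact hc h1)
    (by
      obtain ⟨i, hi⟩ := hpe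
      refine ⟨i, fun h => hi ?_⟩
      have h1 : ev ((UU k σ e i).coeff e) = 0 := hqle h
      rwa [← hcoef, hU] at h1)
    (by
      obtain ⟨i, hi⟩ := hp0
      refine ⟨i, fun h => hi ?_⟩
      have h1 : ev ((UU k σ e i).coeff 0) = 0 := hqle h
      rwa [← hcoef, hU] at h1)
  have hzero : aeval (lin c p) (Ψ q) = 0 := by
    rw [← hevl]
    ext n
    rw [hcoef, Polynomial.coeff_zero]
    exact hqle (key n)
  rw [map_prod]
  exact Finset.prod_eq_zero (hfin.mem_toFinset.2 hq) hzero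

theorem pf_X13 (hP1Z : T_P1Z) (hGL3 : T_GL3) : T_X13 := by
  intro k F σ _ _ _ _ _ _ X u θ dd J δ j0 c0 c hS m GP hm hGh hCv e0
  have hF := x13_fam hGL3 k F σ X u θ dd J δ j0 c0 c hS m GP hm hGh hCv
  choose! N Ψ h0 hh hΨ using hF
  have hId : HId (RingHom.ker (aeval X : MvPolynomial σ k →ₐ[k] F)) := fun f hf d =>
    RingHom.mem_ker.2 (comp_zero X u dd hS.prj.Xeu X (fun _ h => h) f (RingHom.mem_ker.1 hf) d)
  have hmem : ∀ I ∈ Finset.Icc 1 e0 ×ˢ Finset.range (m * e0 + 1), 1 ≤ I.1 := by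
    intro I hI
    exact (Finset.mem_Icc.1 (Finset.mem_product.1 hI).1).1
  refine ⟨∑ I ∈ Finset.Icc 1 e0 ×ˢ Finset.range (m * e0 + 1), N I.1 I.2,
    ∏ I ∈ Finset.Icc 1 e0 ×ˢ Finset.range (m * e0 + 1), Ψ I.1 I.2, ?_, ?_, ?_⟩
  · exact Finset.prod_ne_zero_iff.2 fun I hI => h0 I.1 I.2 (hmem I hI)
  · exact IsHomogeneous.prod _ _ _ fun I hI => hh I.1 I.2 (hmem I hI)
  · intro K _ _ _ htr D hD z S hPr hCrv hdeg hneg
    obtain ⟨p, t, y, c1, a, hy, hc, hx, he, hpd, hpe, hp0, hG, hI⟩ :=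
      hP1Z k σ _ hId GP m (by omega) hGh K htr D hD z S hPr hCrv hneg
    have ha : a ≤ m * e0 := by
      have h1 := natDegree_aeval_le GP m (deg k z) hGh p hpd
      rw [hG, Polynomial.natDegree_C_mul_X_pow a c1 hc] at h1
      exact h1.trans (Nat.mul_le_mul_left m hdeg)
    have hI2 : (deg k z, a) ∈ Finset.Icc 1 e0 ×ˢ Finset.range (m * e0 + 1) :=
      Finset.mem_product.2 ⟨Finset.mem_Icc.2 ⟨he, hdeg⟩, Finset.mem_range.2 (by
        show a < m * e0 + 1
        omega)⟩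
    have h1 := hΨ (deg k z) a he p c1 hc hpd hpe hp0
      (fun f hf => hI f (RingHom.mem_ker.2 hf)) hG
    have h2 : aeval (lin c z) (Ψ (deg k z) a) = 0 := by
      have h3 : lin c z = fun l => y * Polynomial.aeval t (lin c p l) := by
        funext l
        have h4 : z = fun i => y * Polynomial.aeval t (p i) := funext hx
        rw [← lin_map c (Polynomial.aeval t) p l, ← lin_mul, ← h4]
      have h4 : aeval (fun l => Polynomial.aeval t (lin c p l)) (Ψ (deg k z) a) =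
          Polynomial.aeval t (aeval (lin c p) (Ψ (deg k z) a)) := by
        rw [← comp_aeval_apply]
      rw [h3, aeval_mul_hom _ _ (hh _ _ he), h4, h1, map_zero, mul_zero]
    rw [map_prod]
    exact Finset.prod_eq_zero hI2 h2

end Pool.Agent.H20.S2
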